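import Pool.Agent.H14.GP.Va
import Pool.Agent.H5.GP.E2b

/-!
# MP_103a5c_HF: prime powers in `WW`, any band (part a: squares of primes in mean square)
-/

open MeasureTheory Set Filter Topology
open scoped Real ContDiff ComplexConjugate

namespace Pool.Agent.H26.HF

open Pool.Agent.H14.GP Pool.Agent.H26.GH

/-- decay of the weighted mean of a cosine -/
theorem exists_EE_cos {v : ℝ → ℝ} (hv : Wgt v) : ∃ C : ℝ, 0 ≤ C ∧ ∀ T : ℝ, 0 < T → ∀ y : ℝ,
    |EE v T (fun t => Real.cos (t * y))| ≤ C ∧ |EE v T (fun t => Real.cos (t * y))| * (T * |y|) ≤ C := by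
  obtain ⟨C0, h0, hC0⟩ := wdec hv 0
  obtain ⟨C1, h1, hC1⟩ := wdec hv 1
  have key : ∀ T y : ℝ, 0 < T → EE v T (fun t => Real.cos (t * y)) =
      (EC v T (fun t => Complex.exp (-((t * y : ℝ) : ℂ) * Complex.I))).re := by
    intro T y hT
    unfold EE EC
    rw [Complex.re_ofReal_mul]
    congr 1
    have hint : Integrable (fun t => (v (t / T) : ℂ) * Complex.exp (-((t * y : ℝ) : ℂ) * Complex.I)) := by
      have hc : Continuous (fun t => (v (t / T) : ℂ) * Complex.exp (-((t * y : ℝ) : ℂ) * Complex.I)) := by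
        have := wcont hv
        fun_prop
      apply hc.integrable_of_hasCompactSupport
      exact ((wscs hv hT).comp_left (g := fun x : ℝ => (x : ℂ)) Complex.ofReal_zero).mul_right
    have h2 := integral_re hint
    have h3 : ∀ z : ℂ, RCLike.re z = z.re := fun z => rfl
    rw [← h3 (∫ t, (v (t / T) : ℂ) * Complex.exp (-((t * y : ℝ) : ℂ) * Complex.I)), ← h2]
    refine integral_congr_ae (ae_of_all _ fun t => ?_)
    show _ = ((v (t / T) : ℂ) * Complex.exp (-((t * y : ℝ) : ℂ) * Complex.I)).re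
    rw [Complex.re_ofReal_mul, ← Complex.ofReal_neg, Complex.exp_ofReal_mul_I_re, Real.cos_neg]
  refine ⟨max C0 C1, le_max_of_le_left h0, fun T hT y => ?_⟩
  rw [key T y hT]
  have h2 := Complex.abs_re_le_norm (EC v T (fun t => Complex.exp (-((t * y : ℝ) : ℂ) * Complex.I)))
  constructor
  · have := hC0 T hT y
    rw [pow_zero, mul_one] at this
    exact (h2.trans this).trans (le_max_left _ _)
  · have := hC1 T hT y
    rw [pow_one] at this
    refine le_trans ?_ (this.trans (le_max_right _ _))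
    exact mul_le_mul_of_nonneg_right h2 (by positivity)

/-- the inner sum -/
theorem sum_inner_le (q : ℕ) : ∑ p ∈ Finset.Ico 1 q, 1 / ((p : ℝ) * ((q : ℝ) - p)) ≤
    2 / q * (1 + Real.log q) := by
  rcases Nat.eq_zero_or_pos q with h0 | h0
  · subst h0; simp
  have hq : (0 : ℝ) < q := by exact_mod_cast h0
  have e1 : ∀ p ∈ Finset.Ico 1 q, 1 / ((p : ℝ) * ((q : ℝ) - p)) = 1 / q * (1 / p + 1 / ((q : ℝ) - p)) := by
    intro p hp
    rw [Finset.mem_Ico] at hp
    have hp0 : (0 : ℝ) < p := by exact_mod_cast hp.1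
    have hp1 : (0 : ℝ) < (q : ℝ) - p := by
      have : (p : ℝ) < q := by exact_mod_cast hp.2
      linarith
    field_simp
    ring
  rw [Finset.sum_congr rfl e1, ← Finset.mul_sum, Finset.sum_add_distrib]
  have h1 : ∑ p ∈ Finset.Ico 1 q, 1 / (p : ℝ) ≤ 1 + Real.log q := by
    have h := harmonic_le_one_add_log q
    rw [harmonic_eq_sum_Icc] at h
    push_cast at h
    refine le_trans ?_ h
    have hsub : Finset.Ico 1 q ⊆ Finset.Icc 1 q := fun x hx => by
      rw [Finset.mem_Ico] at hx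
      rw [Finset.mem_Icc]
      omega
    refine le_trans (Finset.sum_le_sum_of_subset_of_nonneg hsub fun x _ _ => by positivity) ?_
    refine le_of_eq (Finset.sum_congr rfl fun x _ => ?_)
    rw [one_div]
  have h2 : ∑ p ∈ Finset.Ico 1 q, 1 / ((q : ℝ) - p) = ∑ p ∈ Finset.Ico 1 q, 1 / (p : ℝ) := by
    refine Finset.sum_nbij' (fun p => q - p) (fun p => q - p) ?_ ?_ ?_ ?_ ?_
    · intro p hp
      rw [Finset.mem_Ico] at hp ⊢
      omega
    · intro p hp
      rw [Finset.mem_Ico] at hp ⊢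
      omega
    · intro p hp
      rw [Finset.mem_Ico] at hp
      show q - (q - p) = p
      omega
    · intro p hp
      rw [Finset.mem_Ico] at hp
      show q - (q - p) = p
      omega
    · intro p hp
      rw [Finset.mem_Ico] at hp
      rw [Nat.cast_sub (by omega)]
  rw [h2]
  have h3 : 0 ≤ 1 / (q : ℝ) := by positivity
  calc 1 / (q : ℝ) * (∑ p ∈ Finset.Ico 1 q, 1 / (p : ℝ) + ∑ p ∈ Finset.Ico 1 q, 1 / (p : ℝ))
      ≤ 1 / (q : ℝ) * ((1 + Real.log q) + (1 + Real.log q)) :=
        mul_le_mul_of_nonneg_left (add_le_add h1 h1) h3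
    _ = _ := by ring

theorem sum_double_le (M : ℕ) : ∑ q ∈ Finset.Icc 2 M, ∑ p ∈ Finset.Ico 1 q, 1 / ((p : ℝ) * ((q : ℝ) - p)) ≤
    2 * (1 + Real.log M) ^ 2 := by
  have h1 : ∀ q ∈ Finset.Icc 2 M, ∑ p ∈ Finset.Ico 1 q, 1 / ((p : ℝ) * ((q : ℝ) - p)) ≤
      2 * (1 + Real.log M) * (1 / (q : ℝ)) := by
    intro q hq
    rw [Finset.mem_Icc] at hq
    refine (sum_inner_le q).trans ?_
    have hq0 : (0 : ℝ) < q := by
      have : 0 < q := by omega
      exact_mod_cast this
    have h2 : Real.log q ≤ Real.log M := Real.log_le_log hq0 (by exact_mod_cast hq.2)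
    calc 2 / (q : ℝ) * (1 + Real.log q) ≤ 2 / (q : ℝ) * (1 + Real.log M) :=
          mul_le_mul_of_nonneg_left (by linarith) (by positivity)
      _ = _ := by ring
  refine (Finset.sum_le_sum h1).trans ?_
  rw [← Finset.mul_sum]
  have h0 : 0 ≤ Real.log M := Real.log_natCast_nonneg M
  have h3 : ∑ q ∈ Finset.Icc 2 M, 1 / (q : ℝ) ≤ 1 + Real.log M := by
    have h := harmonic_le_one_add_log M
    rw [harmonic_eq_sum_Icc] at h
    push_cast at h
    refine le_trans ?_ h
    refine le_trans (Finset.sum_le_sum_of_subset_of_nonneg (Finset.Icc_subset_Icc_left (show 1 ≤ 2 by norm_num))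
      fun x _ _ => by positivity) ?_
    refine le_of_eq (Finset.sum_congr rfl fun x _ => ?_)
    rw [one_div]
  calc 2 * (1 + Real.log M) * ∑ q ∈ Finset.Icc 2 M, 1 / (q : ℝ) ≤ 2 * (1 + Real.log M) * (1 + Real.log M) :=
        mul_le_mul_of_nonneg_left h3 (by positivity)
    _ = _ := by ring

end Pool.Agent.H26.HF
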