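import Pool.Agent.H26.HF.A

/-!
# MP_103a5c_HF: prime powers in `WW`, any band (part b: mean square of sums over squares)
-/

open MeasureTheory Set Filter Topology
open scoped Real ContDiff ComplexConjugate

namespace Pool.Agent.H26.HF

open Pool.Agent.H14.GP Pool.Agent.H26.GH

theorem EE_sum {v : ℝ → ℝ} (hv : Wgt v) {T : ℝ} (hT : 0 < T) {α : Type*} (s : Finset α) (f : α → ℝ → ℝ)
    (hf : ∀ a ∈ s, Continuous (f a)) : EE v T (fun t => ∑ a ∈ s, f a t) = ∑ a ∈ s, EE v T (f a) := by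
  classical
  induction s using Finset.induction_on with
  | empty =>
    unfold EE
    simp
  | insert a s ha ih =>
    rw [Finset.sum_insert ha, ← ih fun b hb => hf b (Finset.mem_insert_of_mem hb)]
    have e : (fun t => ∑ b ∈ insert a s, f b t) = fun t => f a t + ∑ b ∈ s, f b t := by
      ext t
      rw [Finset.sum_insert ha]
    rw [e]
    exact EE_add hv hT (hf a (Finset.mem_insert_self _ _))
      (continuous_finset_sum _ fun b hb => hf b (Finset.mem_insert_of_mem hb))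

/-- the mean of a product of two cosines -/
theorem EE_cos_mul {v : ℝ → ℝ} (hv : Wgt v) {C : ℝ} (hC0 : 0 ≤ C)
    (hC : ∀ T : ℝ, 0 < T → ∀ y : ℝ, |EE v T (fun t => Real.cos (t * y))| ≤ C ∧
      |EE v T (fun t => Real.cos (t * y))| * (T * |y|) ≤ C) {T : ℝ} (hT : 0 < T) {x y : ℝ}
    (hx : 0 ≤ x) (hy : 0 ≤ y) :
    |EE v T (fun t => Real.cos (t * x) * Real.cos (t * y))| ≤ C ∧
      |EE v T (fun t => Real.cos (t * x) * Real.cos (t * y))| * (T * |x - y|) ≤ C := by
  have e : EE v T (fun t => Real.cos (t * x) * Real.cos (t * y)) =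
      1 / 2 * EE v T (fun t => Real.cos (t * (x - y))) + 1 / 2 * EE v T (fun t => Real.cos (t * (x + y))) := by
    rw [← EE_const_mul, ← EE_const_mul, ← EE_add hv hT (by fun_prop) (by fun_prop)]
    congr 1
    ext t
    rw [show t * (x - y) = t * x - t * y by ring, show t * (x + y) = t * x + t * y by ring,
      Real.cos_sub, Real.cos_add]
    ring
  have h1 := hC T hT (x - y)
  have h2 := hC T hT (x + y)
  have h3 : |EE v T (fun t => Real.cos (t * x) * Real.cos (t * y))| ≤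
      1 / 2 * |EE v T (fun t => Real.cos (t * (x - y)))| + 1 / 2 * |EE v T (fun t => Real.cos (t * (x + y)))| := by
    rw [e]
    refine (abs_add_le _ _).trans ?_
    rw [abs_mul, abs_mul, abs_of_pos (by norm_num : (0 : ℝ) < 1 / 2)]
  constructor
  · linarith [h1.1, h2.1]
  · have h4 : |x - y| ≤ |x + y| := by
      rw [abs_of_nonneg (by linarith : (0 : ℝ) ≤ x + y), abs_le]
      constructor <;> linarith
    have h5 : |EE v T (fun t => Real.cos (t * (x + y)))| * (T * |x - y|) ≤ C :=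
      le_trans (mul_le_mul_of_nonneg_left (mul_le_mul_of_nonneg_left h4 hT.le) (abs_nonneg _)) h2.2
    have h6 : 0 ≤ T * |x - y| := by positivity
    nlinarith [mul_le_mul_of_nonneg_right h3 h6, h1.2]

/-- `|log p - log q| ≥ |p - q| / max p q` -/
theorem log_sub_ge {p q : ℕ} (hp : 1 ≤ p) (hpq : p < q) :
    ((q : ℝ) - p) / q ≤ |Real.log p - Real.log q| := by
  have hp0 : (0 : ℝ) < p := by exact_mod_cast hp
  have hq0 : (0 : ℝ) < q := hp0.trans (by exact_mod_cast hpq)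
  have h1 := Real.log_le_sub_one_of_pos (x := (p : ℝ) / q) (by positivity)
  rw [Real.log_div hp0.ne' hq0.ne'] at h1
  rw [abs_sub_comm]
  refine le_trans ?_ (le_abs_self _)
  have : ((q : ℝ) - p) / q = 1 - (p : ℝ) / q := by field_simp
  rw [this]
  linarith

/-- Mean square of a sum over squares. -/
theorem exists_EE_sq_sum {v : ℝ → ℝ} (hv : Wgt v) : ∃ K : ℝ, 0 ≤ K ∧ ∀ (B : ℝ) (M : ℕ) (a : ℕ → ℝ), 0 ≤ B →
    (∀ m, 2 ≤ m → |a m| ≤ B * (Real.log m / m)) → ∀ T : ℝ, 0 < T →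
    EE v T (fun t => (∑ m ∈ Finset.Icc 2 M, a m * Real.cos (t * (2 * Real.log m))) ^ 2) ≤
      K * B ^ 2 * (1 + (1 + Real.log M) ^ 4 / T) := by
  obtain ⟨C, hC0, hC⟩ := exists_EE_cos hv
  set S0 : ℝ := ∑' m : ℕ, ((m : ℝ) ^ (3 / 2 : ℝ))⁻¹ with hS0
  have hsum : Summable (fun m : ℕ => ((m : ℝ) ^ (3 / 2 : ℝ))⁻¹) :=
    Real.summable_nat_rpow_inv.2 (by norm_num)
  have hS00 : 0 ≤ S0 := tsum_nonneg fun m => by positivity
  refine ⟨C * (144 * S0) + 4 * C, by positivity, fun B M a hB ha T hT => ?_⟩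
  have hL0 : 0 ≤ Real.log M := Real.log_natCast_nonneg M
  -- expand the square
  have e1 : EE v T (fun t => (∑ m ∈ Finset.Icc 2 M, a m * Real.cos (t * (2 * Real.log m))) ^ 2) =
      ∑ p ∈ Finset.Icc 2 M, ∑ q ∈ Finset.Icc 2 M, a p * a q *
        EE v T (fun t => Real.cos (t * (2 * Real.log p)) * Real.cos (t * (2 * Real.log q))) := by
    have e2 : (fun t => (∑ m ∈ Finset.Icc 2 M, a m * Real.cos (t * (2 * Real.log m))) ^ 2) =
        fun t => ∑ p ∈ Finset.Icc 2 M, ∑ q ∈ Finset.Icc 2 M, (a p * a q) *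
          (Real.cos (t * (2 * Real.log p)) * Real.cos (t * (2 * Real.log q))) := by
      ext t
      rw [sq, Finset.sum_mul_sum]
      refine Finset.sum_congr rfl fun p _ => Finset.sum_congr rfl fun q _ => ?_
      ring
    rw [e2, EE_sum hv hT _ (fun p t => ∑ q ∈ Finset.Icc 2 M, (a p * a q) *
          (Real.cos (t * (2 * Real.log p)) * Real.cos (t * (2 * Real.log q))))
          (fun p _ => by fun_prop)]
    refine Finset.sum_congr rfl fun p _ => ?_
    rw [EE_sum hv hT _ (fun q t => (a p * a q) *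
          (Real.cos (t * (2 * Real.log p)) * Real.cos (t * (2 * Real.log q))))
          (fun q _ => by fun_prop)]
    refine Finset.sum_congr rfl fun q _ => ?_
    rw [EE_const_mul]
  -- the bound of one term
  set Φ : ℕ → ℕ → ℝ := fun p q => 1 / ((p : ℝ) * ((q : ℝ) - p)) with hΦ
  set ℓ : ℝ := Real.log M with hℓ
  have hlt : ∀ p q : ℕ, 2 ≤ p → p < q → q ≤ M →
      |a p| * |a q| * |EE v T (fun t => Real.cos (t * (2 * Real.log p)) * Real.cos (t * (2 * Real.log q)))| ≤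
      (C * B ^ 2 * ℓ ^ 2 / (2 * T)) * Φ p q := by
    intro p q hp h hq
    have hp0 : (0 : ℝ) < p := by
      have : 0 < p := by omega
      exact_mod_cast this
    have hq0 : (0 : ℝ) < q := by
      have : 0 < q := by omega
      exact_mod_cast this
    have hlp := Real.log_natCast_nonneg p
    have hlq := Real.log_natCast_nonneg q
    have hlpM : Real.log p ≤ ℓ := Real.log_le_log hp0 (by exact_mod_cast (h.le.trans hq))
    have hlqM : Real.log q ≤ ℓ := Real.log_le_log hq0 (by exact_mod_cast hq)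
    have hE := EE_cos_mul hv hC0 hC hT (x := 2 * Real.log p) (y := 2 * Real.log q) (by positivity) (by positivity)
    set E := EE v T (fun t => Real.cos (t * (2 * Real.log p)) * Real.cos (t * (2 * Real.log q))) with hEdef
    have hqp : (0 : ℝ) < (q : ℝ) - p := by
      have : (p : ℝ) < q := by exact_mod_cast h
      linarith
    have h1 := log_sub_ge (by omega : 1 ≤ p) h
    have h2 : |E| ≤ C * q / (2 * T * ((q : ℝ) - p)) := by
      rw [le_div_iff₀ (by positivity)]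
      have h3 : |E| * (T * (2 * (((q : ℝ) - p) / q))) ≤ C := by
        refine le_trans (mul_le_mul_of_nonneg_left (mul_le_mul_of_nonneg_left ?_ hT.le) (abs_nonneg _)) hE.2
        rw [show 2 * Real.log p - 2 * Real.log q = 2 * (Real.log p - Real.log q) by ring, abs_mul,
          abs_of_pos (by norm_num : (0 : ℝ) < 2)]
        linarith
      have h4 := mul_le_mul_of_nonneg_right h3 hq0.le
      have h5 : |E| * (T * (2 * (((q : ℝ) - p) / q))) * q = |E| * (2 * T * ((q : ℝ) - p)) := by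
        field_simp
      rw [h5] at h4
      exact h4
    have h6 : |a p| * |a q| ≤ B ^ 2 * ℓ ^ 2 / (p * q) := by
      have h7 := ha p hp
      have h8 := ha q (by omega)
      calc |a p| * |a q| ≤ (B * (Real.log p / p)) * (B * (Real.log q / q)) :=
            mul_le_mul h7 h8 (abs_nonneg _) (by positivity)
        _ ≤ (B * (ℓ / p)) * (B * (ℓ / q)) := by gcongr
        _ = B ^ 2 * ℓ ^ 2 / (p * q) := by ring
    calc |a p| * |a q| * |E| ≤ B ^ 2 * ℓ ^ 2 / (p * q) * (C * q / (2 * T * ((q : ℝ) - p))) :=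
          mul_le_mul h6 h2 (abs_nonneg _) (by positivity)
      _ = (C * B ^ 2 * ℓ ^ 2 / (2 * T)) * Φ p q := by
          rw [hΦ]
          field_simp
  have hterm : ∀ p ∈ Finset.Icc 2 M, ∀ q ∈ Finset.Icc 2 M, a p * a q *
        EE v T (fun t => Real.cos (t * (2 * Real.log p)) * Real.cos (t * (2 * Real.log q))) ≤
      (if p = q then C * a p ^ 2 else 0) + (C * B ^ 2 * ℓ ^ 2 / (2 * T)) *
        ((if p < q then Φ p q else 0) + (if q < p then Φ q p else 0)) := by
    intro p hp q hq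
    rw [Finset.mem_Icc] at hp hq
    rcases lt_trichotomy p q with h | h | h
    · rw [if_neg h.ne, if_pos h, if_neg (not_lt.2 h.le), zero_add, add_zero]
      refine le_trans ?_ (hlt p q hp.1 h hq.2)
      rw [← abs_mul, ← abs_mul]
      exact le_abs_self _
    · subst h
      rw [if_pos rfl, if_neg (lt_irrefl _), add_zero, mul_zero, add_zero]
      have hE := EE_cos_mul hv hC0 hC hT (x := 2 * Real.log p) (y := 2 * Real.log p)
        (mul_nonneg (by norm_num) (Real.log_natCast_nonneg p)) (mul_nonneg (by norm_num) (Real.log_natCast_nonneg p))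
      refine (le_abs_self _).trans ?_
      rw [abs_mul, abs_mul_self]
      calc a p * a p * |EE v T (fun t => Real.cos (t * (2 * Real.log p)) * Real.cos (t * (2 * Real.log p)))|
          ≤ a p * a p * C := mul_le_mul_of_nonneg_left hE.1 (mul_self_nonneg _)
        _ = _ := by ring
    · rw [if_neg h.ne', if_neg (not_lt.2 h.le), if_pos h, zero_add, zero_add]
      refine le_trans ?_ (hlt q p hq.1 h hp.2)
      rw [← abs_mul, ← abs_mul]
      refine le_trans (le_of_eq ?_) (le_abs_self _)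
      have e3 : (fun t : ℝ => Real.cos (t * (2 * Real.log p)) * Real.cos (t * (2 * Real.log q))) =
          fun t => Real.cos (t * (2 * Real.log q)) * Real.cos (t * (2 * Real.log p)) := by
        ext t
        ring
      rw [e3]
      ring
  rw [e1]
  refine (Finset.sum_le_sum fun p hp => Finset.sum_le_sum fun q hq => hterm p hp q hq).trans ?_
  have hK' : 0 ≤ C * B ^ 2 * ℓ ^ 2 / (2 * T) := by positivity
  have hΦ0 : ∀ q ∈ Finset.Icc 2 M, ∑ p ∈ Finset.Icc 2 M, (if p < q then Φ p q else 0) ≤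
      ∑ p ∈ Finset.Ico 1 q, Φ p q := by
    intro q hq
    rw [← Finset.sum_filter]
    refine Finset.sum_le_sum_of_subset_of_nonneg ?_ ?_
    · intro p hp
      rw [Finset.mem_filter, Finset.mem_Icc] at hp
      rw [Finset.mem_Ico]
      omega
    · intro p hp _
      rw [Finset.mem_Ico] at hp
      have : (p : ℝ) < q := by exact_mod_cast hp.2
      have h9 : (0 : ℝ) ≤ (q : ℝ) - p := by linarith
      rw [hΦ]
      positivity
  have hdiag : ∑ p ∈ Finset.Icc 2 M, a p ^ 2 ≤ B ^ 2 * (144 * S0) := by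
    have h1 : ∀ m ∈ Finset.Icc 2 M, a m ^ 2 ≤ B ^ 2 * (144 * ((m : ℝ) ^ (3 / 2 : ℝ))⁻¹) := by
      intro m hm
      rw [Finset.mem_Icc] at hm
      have hm0 : (0 : ℝ) < m := by
        have : 0 < m := by omega
        exact_mod_cast this
      have h2 := ha m hm.1
      have h3 := Pool.Agent.H5.GP.log_sq_le hm.1
      have h4 : a m ^ 2 ≤ (B * (Real.log m / m)) ^ 2 := by
        rw [← sq_abs]
        exact pow_le_pow_left₀ (abs_nonneg _) h2 2
      refine h4.trans ?_
      rw [mul_pow]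
      refine mul_le_mul_of_nonneg_left ?_ (sq_nonneg _)
      refine le_trans ?_ h3
      rw [div_pow, mul_pow]
      have : Real.log m ^ 2 ≤ 3 ^ 2 * Real.log m ^ 2 := by nlinarith [sq_nonneg (Real.log m)]
      gcongr
    refine (Finset.sum_le_sum h1).trans ?_
    rw [← Finset.mul_sum, ← Finset.mul_sum]
    refine mul_le_mul_of_nonneg_left (mul_le_mul_of_nonneg_left ?_ (by norm_num)) (sq_nonneg _)
    exact hsum.sum_le_tsum _ (fun m _ => by positivity)
  have h10 : ∑ p ∈ Finset.Icc 2 M, ∑ q ∈ Finset.Icc 2 M, (if p = q then C * a p ^ 2 else 0) =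
      C * ∑ p ∈ Finset.Icc 2 M, a p ^ 2 := by
    rw [Finset.mul_sum]
    refine Finset.sum_congr rfl fun p hp => ?_
    rw [Finset.sum_ite_eq, if_pos hp]
  have h11 : ∑ p ∈ Finset.Icc 2 M, ∑ q ∈ Finset.Icc 2 M, (if p < q then Φ p q else 0) ≤ 2 * (1 + ℓ) ^ 2 := by
    rw [Finset.sum_comm]
    exact (Finset.sum_le_sum hΦ0).trans (sum_double_le M)
  have h12 : ∑ p ∈ Finset.Icc 2 M, ∑ q ∈ Finset.Icc 2 M, (if q < p then Φ q p else 0) ≤ 2 * (1 + ℓ) ^ 2 :=
    (Finset.sum_le_sum hΦ0).trans (sum_double_le M)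
  have h13 : ∑ p ∈ Finset.Icc 2 M, ∑ q ∈ Finset.Icc 2 M, ((if p = q then C * a p ^ 2 else 0) +
      (C * B ^ 2 * ℓ ^ 2 / (2 * T)) * ((if p < q then Φ p q else 0) + (if q < p then Φ q p else 0))) =
      ∑ p ∈ Finset.Icc 2 M, ∑ q ∈ Finset.Icc 2 M, (if p = q then C * a p ^ 2 else 0) +
      (C * B ^ 2 * ℓ ^ 2 / (2 * T)) * (∑ p ∈ Finset.Icc 2 M, ∑ q ∈ Finset.Icc 2 M, (if p < q then Φ p q else 0) +
      ∑ p ∈ Finset.Icc 2 M, ∑ q ∈ Finset.Icc 2 M, (if q < p then Φ q p else 0)) := by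
    simp only [Finset.sum_add_distrib, Finset.mul_sum, mul_add]
  rw [h13, h10]
  have h14 : C * ∑ p ∈ Finset.Icc 2 M, a p ^ 2 ≤ C * (B ^ 2 * (144 * S0)) := mul_le_mul_of_nonneg_left hdiag hC0
  have h15 : (C * B ^ 2 * ℓ ^ 2 / (2 * T)) * (∑ p ∈ Finset.Icc 2 M, ∑ q ∈ Finset.Icc 2 M, (if p < q then Φ p q else 0) +
      ∑ p ∈ Finset.Icc 2 M, ∑ q ∈ Finset.Icc 2 M, (if q < p then Φ q p else 0)) ≤
      (C * B ^ 2 * ℓ ^ 2 / (2 * T)) * (2 * (1 + ℓ) ^ 2 + 2 * (1 + ℓ) ^ 2) :=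
    mul_le_mul_of_nonneg_left (add_le_add h11 h12) hK'
  have h16 : (C * B ^ 2 * ℓ ^ 2 / (2 * T)) * (2 * (1 + ℓ) ^ 2 + 2 * (1 + ℓ) ^ 2) ≤
      4 * C * B ^ 2 * ((1 + ℓ) ^ 4 / T) := by
    have h17 : ℓ ^ 2 ≤ (1 + ℓ) ^ 2 := by nlinarith
    have h18 : ℓ ^ 2 * (1 + ℓ) ^ 2 ≤ (1 + ℓ) ^ 4 := by
      have := mul_le_mul_of_nonneg_right h17 (sq_nonneg (1 + ℓ))
      calc ℓ ^ 2 * (1 + ℓ) ^ 2 ≤ (1 + ℓ) ^ 2 * (1 + ℓ) ^ 2 := this
        _ = _ := by ring
    have h19 : (C * B ^ 2 * ℓ ^ 2 / (2 * T)) * (2 * (1 + ℓ) ^ 2 + 2 * (1 + ℓ) ^ 2) =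
        2 * C * B ^ 2 / T * (ℓ ^ 2 * (1 + ℓ) ^ 2) := by
      field_simp
      ring
    rw [h19]
    have h20 : 0 ≤ 2 * C * B ^ 2 / T := by positivity
    calc 2 * C * B ^ 2 / T * (ℓ ^ 2 * (1 + ℓ) ^ 2) ≤ 2 * C * B ^ 2 / T * (1 + ℓ) ^ 4 :=
          mul_le_mul_of_nonneg_left h18 h20
      _ ≤ 2 * (2 * C * B ^ 2 / T * (1 + ℓ) ^ 4) := by
          have : 0 ≤ 2 * C * B ^ 2 / T * (1 + ℓ) ^ 4 := by positivity
          linarith
      _ = _ := by ring
  have h21 : 0 ≤ C * (144 * S0) * B ^ 2 * ((1 + ℓ) ^ 4 / T) := by positivity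
  have h22 : 0 ≤ 4 * C * B ^ 2 := by positivity
  nlinarith

end Pool.Agent.H26.HF
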