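import Pool.Agent.H26.HF.B

/-!
# MP_103a5c_HF: prime powers in `WW`, any band (part c: cubes and higher; the mean square of `rr` tends to `0`)
-/

open MeasureTheory Set Filter Topology
open scoped Real ContDiff ComplexConjugate

namespace Pool.Agent.H26.HF

open Pool.Agent.H6 (WW cosT TestFn WW_eq_sum bb_eq_zero)
open Pool.Agent.H14.GP Pool.Agent.H26.GH Pool.Agent.H5.GP

open Classical in
/-- non-primes `2 ≤ n ≤ N` which are not squares of primes -/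
noncomputable def n3 (N : ℕ) : Finset ℕ := (npr N).filter (fun n => ¬ ∃ p : ℕ, p.Prime ∧ p ^ 2 = n)

theorem log_le_quarter {m : ℕ} (hm : 1 ≤ m) : Real.log m ≤ 4 * (m : ℝ) ^ (1 / 4 : ℝ) := by
  have hm0 : (0 : ℝ) < m := by
    have : 0 < m := by omega
    exact_mod_cast this
  have h2 := Real.add_one_le_exp (Real.log m / 4)
  rw [Real.rpow_def_of_pos hm0, show Real.log m * (1 / 4) = Real.log m / 4 by ring]
  linarith

/-- prime powers with exponent at least three -/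
theorem exists_n3 : ∃ K : ℝ, 0 ≤ K ∧ ∀ N : ℕ,
    ∑ n ∈ n3 N, ArithmeticFunction.vonMangoldt n * (n : ℝ) ^ (-(1 / 2) : ℝ) ≤ K := by
  classical
  have hsum : Summable (fun m : ℕ => ((m : ℝ) ^ (5 / 4 : ℝ))⁻¹) :=
    Real.summable_nat_rpow_inv.2 (by norm_num)
  set S : ℝ := ∑' m : ℕ, ((m : ℝ) ^ (5 / 4 : ℝ))⁻¹ with hS
  have hS0 : 0 ≤ S := tsum_nonneg fun m => by positivity
  set r : ℝ := (2 : ℝ) ^ (-(1 / 2) : ℝ) with hr
  have hr0 : 0 < r := Real.rpow_pos_of_pos (by norm_num) _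
  have hr1 : r < 1 := by
    rw [hr]
    exact Real.rpow_lt_one_of_one_lt_of_neg (by norm_num) (by norm_num)
  have hgeo : ∀ K : ℕ, ∑ k ∈ Finset.range K, r ^ k ≤ (1 - r)⁻¹ := by
    intro K
    have h1 := summable_geometric_of_lt_one hr0.le hr1
    have h2 := tsum_geometric_of_lt_one hr0.le hr1
    rw [← h2]
    exact h1.sum_le_tsum _ (fun k _ => by positivity)
  have hgp : 0 < (1 - r)⁻¹ := inv_pos.2 (by linarith)
  refine ⟨4 * S * (1 - r)⁻¹, by positivity, fun N => ?_⟩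
  have hf0 : ∀ n : ℕ, 0 ≤ ArithmeticFunction.vonMangoldt n * (n : ℝ) ^ (-(1 / 2) : ℝ) := fun n =>
    mul_nonneg ArithmeticFunction.vonMangoldt_nonneg (Real.rpow_nonneg (Nat.cast_nonneg _) _)
  -- cover by pairs (p, k)
  set P : Finset (ℕ × ℕ) := ((Finset.Icc 2 N).filter Nat.Prime) ×ˢ (Finset.range N) with hP
  have hcov : ∀ n ∈ n3 N, ArithmeticFunction.vonMangoldt n ≠ 0 → n ∈ P.image (fun x => x.1 ^ (x.2 + 3)) := by
    intro n hn h
    unfold n3 npr at hn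
    rw [Finset.mem_filter, Finset.mem_filter, Finset.mem_Icc] at hn
    rw [ArithmeticFunction.vonMangoldt_ne_zero_iff] at h
    obtain ⟨p, k, hp, hk, rfl⟩ := h
    have hp' := Nat.prime_iff.2 hp
    have hk1 : k ≠ 1 := fun h1 => hn.1.2 (by rw [h1, pow_one]; exact hp')
    have hk2 : k ≠ 2 := fun h1 => hn.2 ⟨p, hp', by rw [h1]⟩
    have hk3 : 3 ≤ k := by omega
    have hpN : p ≤ N := (Nat.le_self_pow (by omega) p).trans hn.1.1.2
    have hkN : k < p ^ k := Nat.lt_pow_self hp'.one_lt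
    rw [Finset.mem_image]
    refine ⟨(p, k - 3), ?_, ?_⟩
    · rw [hP, Finset.mem_product, Finset.mem_filter, Finset.mem_Icc, Finset.mem_range]
      refine ⟨⟨⟨hp'.two_le, hpN⟩, hp'⟩, ?_⟩
      show k - 3 < N
      have := hn.1.1.2
      omega
    · show p ^ (k - 3 + 3) = p ^ k
      rw [Nat.sub_add_cancel hk3]
  have h1 : ∑ n ∈ n3 N, ArithmeticFunction.vonMangoldt n * (n : ℝ) ^ (-(1 / 2) : ℝ) ≤
      ∑ n ∈ P.image (fun x => x.1 ^ (x.2 + 3)), ArithmeticFunction.vonMangoldt n * (n : ℝ) ^ (-(1 / 2) : ℝ) := by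
    rw [← Finset.sum_filter_add_sum_filter_not (n3 N) (fun n => ArithmeticFunction.vonMangoldt n ≠ 0)]
    have h2 : ∑ n ∈ (n3 N).filter (fun n => ¬ ArithmeticFunction.vonMangoldt n ≠ 0),
        ArithmeticFunction.vonMangoldt n * (n : ℝ) ^ (-(1 / 2) : ℝ) = 0 := by
      refine Finset.sum_eq_zero fun n hn => ?_
      rw [Finset.mem_filter, not_not] at hn
      rw [hn.2, zero_mul]
    rw [h2, add_zero]
    refine Finset.sum_le_sum_of_subset_of_nonneg (fun n hn => ?_) (fun n _ _ => hf0 n)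
    rw [Finset.mem_filter] at hn
    exact hcov n hn.1 hn.2
  refine h1.trans ((Finset.sum_image_le_of_nonneg (fun n _ => hf0 n)).trans ?_)
  have h3 : ∀ x ∈ P, ArithmeticFunction.vonMangoldt (x.1 ^ (x.2 + 3)) *
      ((x.1 ^ (x.2 + 3) : ℕ) : ℝ) ^ (-(1 / 2) : ℝ) ≤ (4 * ((x.1 : ℝ) ^ (5 / 4 : ℝ))⁻¹) * r ^ x.2 := by
    rintro ⟨p, k⟩ hx
    rw [hP, Finset.mem_product, Finset.mem_filter, Finset.mem_Icc, Finset.mem_range] at hx
    obtain ⟨⟨⟨hp2, hpN⟩, hp⟩, hk⟩ := hx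
    dsimp only at hp2 hpN hp hk ⊢
    have hp0 : (0 : ℝ) < p := by exact_mod_cast hp.pos
    rw [ArithmeticFunction.vonMangoldt_apply_pow (by omega), ArithmeticFunction.vonMangoldt_apply_prime hp]
    have h4 := log_le_quarter hp.one_lt.le
    have h5 : ((p ^ (k + 3) : ℕ) : ℝ) ^ (-(1 / 2) : ℝ) = (p : ℝ) ^ (-(3 / 2) : ℝ) * ((p : ℝ) ^ (-(1 / 2) : ℝ)) ^ k := by
      push_cast
      rw [← Real.rpow_natCast (p : ℝ) (k + 3), ← Real.rpow_mul hp0.le, ← Real.rpow_natCast ((p : ℝ) ^ (-(1 / 2) : ℝ)) k,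
        ← Real.rpow_mul hp0.le, ← Real.rpow_add hp0]
      congr 1
      push_cast
      ring
    have h6 : (p : ℝ) ^ (-(1 / 2) : ℝ) ≤ r := by
      rw [hr, Real.rpow_neg hp0.le, Real.rpow_neg (by norm_num)]
      refine inv_anti₀ (Real.rpow_pos_of_pos (by norm_num) _) ?_
      exact Real.rpow_le_rpow (by norm_num) (by exact_mod_cast hp2) (by norm_num)
    have h7 : ((p : ℝ) ^ (-(1 / 2) : ℝ)) ^ k ≤ r ^ k :=
      pow_le_pow_left₀ (Real.rpow_nonneg hp0.le _) h6 k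
    have h8 : Real.log p * (p : ℝ) ^ (-(3 / 2) : ℝ) ≤ 4 * ((p : ℝ) ^ (5 / 4 : ℝ))⁻¹ := by
      have h9 : (p : ℝ) ^ (1 / 4 : ℝ) * (p : ℝ) ^ (-(3 / 2) : ℝ) = ((p : ℝ) ^ (5 / 4 : ℝ))⁻¹ := by
        rw [← Real.rpow_neg hp0.le, ← Real.rpow_add hp0]
        norm_num
      calc Real.log p * (p : ℝ) ^ (-(3 / 2) : ℝ) ≤ (4 * (p : ℝ) ^ (1 / 4 : ℝ)) * (p : ℝ) ^ (-(3 / 2) : ℝ) :=
            mul_le_mul_of_nonneg_right h4 (Real.rpow_nonneg hp0.le _)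
        _ = _ := by rw [mul_assoc, h9]
    rw [h5, ← mul_assoc]
    exact mul_le_mul h8 h7 (pow_nonneg (Real.rpow_nonneg hp0.le _) _) (by positivity)
  refine (Finset.sum_le_sum h3).trans ?_
  rw [hP, Finset.sum_product]
  have h10 : ∀ p ∈ (Finset.Icc 2 N).filter Nat.Prime, ∑ k ∈ Finset.range N, 4 * ((p : ℝ) ^ (5 / 4 : ℝ))⁻¹ * r ^ k ≤
      4 * (1 - r)⁻¹ * ((p : ℝ) ^ (5 / 4 : ℝ))⁻¹ := by
    intro p _
    rw [← Finset.mul_sum]
    calc 4 * ((p : ℝ) ^ (5 / 4 : ℝ))⁻¹ * ∑ k ∈ Finset.range N, r ^ k ≤ 4 * ((p : ℝ) ^ (5 / 4 : ℝ))⁻¹ * (1 - r)⁻¹ :=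
          mul_le_mul_of_nonneg_left (hgeo N) (by positivity)
      _ = _ := by ring
  refine (Finset.sum_le_sum h10).trans ?_
  rw [← Finset.mul_sum]
  have h11 : ∑ p ∈ (Finset.Icc 2 N).filter Nat.Prime, ((p : ℝ) ^ (5 / 4 : ℝ))⁻¹ ≤ S :=
    hsum.sum_le_tsum _ (fun m _ => by positivity)
  calc 4 * (1 - r)⁻¹ * ∑ p ∈ (Finset.Icc 2 N).filter Nat.Prime, ((p : ℝ) ^ (5 / 4 : ℝ))⁻¹ ≤ 4 * (1 - r)⁻¹ * S :=
        mul_le_mul_of_nonneg_left h11 (by positivity)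
    _ = _ := by ring

end Pool.Agent.H26.HF
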