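import Pool.Agent.H26.HF.C
import Pool.Agent.H24.HF.Defs

/-!
# MP_103a5c_HF: prime powers in `WW`, any band (part d)

`WW_eq_long`: `WW ψ (log T) t = 2 Re ev t (bbW (x cosT ψ x) D T) + rr D ψ T t` for every band `D`,
`tendsto_EE_rr_sq'`: the mean square of `rr` tends to `0`, for every band.
-/

open MeasureTheory Set Filter Topology
open scoped Real ContDiff ComplexConjugate

namespace Pool.Agent.H26.HF

open Pool.Agent.H6 (WW cosT TestFn WW_eq_sum bb_eq_zero)
open Pool.Agent.H14.GP Pool.Agent.H26.GH Pool.Agent.H5.GP Pool.Agent.H24.HF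

theorem rr_split {B : ℝ} {ψ : ℝ → ℝ} (hB0 : 0 ≤ B) (hB : ∀ ξ, |cosT ψ ξ| ≤ B) {K : ℝ}
    (hK : ∀ N : ℕ, ∑ n ∈ n3 N, ArithmeticFunction.vonMangoldt n * (n : ℝ) ^ (-(1 / 2) : ℝ) ≤ K) (L : ℝ) (N : ℕ) :
    ∃ a : ℕ → ℝ, (∀ m, 2 ≤ m → |a m| ≤ B * (Real.log m / m)) ∧ ∀ t : ℝ,
      |∑ n ∈ npr N, Pool.Agent.H6.bb ψ L n * Real.cos (t * Real.log n) -
        ∑ m ∈ Finset.Icc 2 (Nat.sqrt N), a m * Real.cos (t * (2 * Real.log m))| ≤ B * K := by
  classical
  refine ⟨fun m => if m.Prime then Pool.Agent.H6.bb ψ L (m ^ 2) else 0, ?_, ?_⟩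
  · intro m hm
    have hm0 : (0 : ℝ) < m := by
      have : 0 < m := by omega
      exact_mod_cast this
    have hl := Real.log_natCast_nonneg m
    dsimp only
    split_ifs with hp
    · unfold Pool.Agent.H6.bb
      rw [ArithmeticFunction.vonMangoldt_apply_pow (by norm_num), ArithmeticFunction.vonMangoldt_apply_prime hp]
      have e : (((m ^ 2 : ℕ) : ℝ)) ^ (-(1 / 2) : ℝ) = 1 / m := by
        push_cast
        rw [← Real.rpow_natCast (m : ℝ) 2, ← Real.rpow_mul hm0.le]
        norm_num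
        rw [Real.rpow_neg_one]
      rw [e, abs_mul, abs_of_nonneg (by positivity : (0 : ℝ) ≤ Real.log m * (1 / m))]
      calc Real.log m * (1 / m) * |cosT ψ (Real.log ((m ^ 2 : ℕ) : ℝ) / L)| ≤ Real.log m * (1 / m) * B :=
            mul_le_mul_of_nonneg_left (hB _) (by positivity)
        _ = _ := by ring
    · rw [abs_zero]
      positivity
  · intro t
    rw [← Finset.sum_filter_add_sum_filter_not (npr N) (fun n => ¬ ∃ p : ℕ, p.Prime ∧ p ^ 2 = n)]
    have h1 : ∑ n ∈ (npr N).filter (fun n => ¬ ¬ ∃ p : ℕ, p.Prime ∧ p ^ 2 = n),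
        Pool.Agent.H6.bb ψ L n * Real.cos (t * Real.log n) =
        ∑ m ∈ Finset.Icc 2 (Nat.sqrt N), (if m.Prime then Pool.Agent.H6.bb ψ L (m ^ 2) else 0) *
          Real.cos (t * (2 * Real.log m)) := by
      have h2 : ∑ m ∈ Finset.Icc 2 (Nat.sqrt N), (if m.Prime then Pool.Agent.H6.bb ψ L (m ^ 2) else 0) *
          Real.cos (t * (2 * Real.log m)) = ∑ m ∈ (Finset.Icc 2 (Nat.sqrt N)).filter Nat.Prime,
          Pool.Agent.H6.bb ψ L (m ^ 2) * Real.cos (t * Real.log ((m ^ 2 : ℕ) : ℝ)) := by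
        rw [Finset.sum_filter]
        refine Finset.sum_congr rfl fun m _ => ?_
        split_ifs
        · push_cast
          rw [Real.log_pow]
          push_cast
          rfl
        · rw [zero_mul]
      rw [h2]
      symm
      refine Finset.sum_bij (fun m _ => m ^ 2) ?_ ?_ ?_ ?_
      · intro m hm
        rw [Finset.mem_filter, Finset.mem_Icc] at hm
        have h3 : m ^ 2 ≤ N := by
          have := Nat.le_sqrt.1 hm.1.2
          rw [pow_two]
          exact this
        rw [Finset.mem_filter, npr, Finset.mem_filter, Finset.mem_Icc, not_not]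
        refine ⟨⟨⟨?_, h3⟩, ?_⟩, m, hm.2, rfl⟩
        · calc 2 ≤ m := hm.1.1
            _ ≤ m ^ 2 := Nat.le_self_pow (by norm_num) m
        · intro h4
          exact Nat.Prime.not_prime_pow (le_refl 2) h4
      · intro m _ m' _ h
        exact Nat.pow_left_injective (by norm_num) h
      · intro n hn
        rw [Finset.mem_filter, npr, Finset.mem_filter, Finset.mem_Icc, not_not] at hn
        obtain ⟨⟨⟨_, h3⟩, _⟩, p, hp, rfl⟩ := hn
        refine ⟨p, ?_, rfl⟩
        rw [Finset.mem_filter, Finset.mem_Icc]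
        refine ⟨⟨hp.two_le, ?_⟩, hp⟩
        rw [Nat.le_sqrt, ← pow_two]
        exact h3
      · intro m _
        rfl
    rw [h1, add_sub_cancel_right]
    refine (Finset.abs_sum_le_sum_abs _ _).trans ?_
    have h5 : ∀ n ∈ n3 N, |Pool.Agent.H6.bb ψ L n * Real.cos (t * Real.log n)| ≤
        B * (ArithmeticFunction.vonMangoldt n * (n : ℝ) ^ (-(1 / 2) : ℝ)) := by
      intro n _
      have h6 : 0 ≤ ArithmeticFunction.vonMangoldt n * (n : ℝ) ^ (-(1 / 2) : ℝ) :=
        mul_nonneg ArithmeticFunction.vonMangoldt_nonneg (Real.rpow_nonneg (Nat.cast_nonneg _) _)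
      rw [abs_mul]
      unfold Pool.Agent.H6.bb
      rw [abs_mul, abs_of_nonneg h6]
      calc ArithmeticFunction.vonMangoldt n * (n : ℝ) ^ (-(1 / 2) : ℝ) * |cosT ψ (Real.log n / L)| *
            |Real.cos (t * Real.log n)| ≤ ArithmeticFunction.vonMangoldt n * (n : ℝ) ^ (-(1 / 2) : ℝ) * B * 1 :=
            mul_le_mul (mul_le_mul_of_nonneg_left (hB _) h6) (Real.abs_cos_le_one _) (abs_nonneg _)
              (mul_nonneg h6 hB0)
        _ = _ := by ring
    refine (Finset.sum_le_sum h5).trans ?_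
    rw [← Finset.mul_sum]
    exact mul_le_mul_of_nonneg_left (hK N) hB0

/-- the mean square of the contribution of the prime powers tends to `0`, for every band -/
theorem tendsto_EE_rr_sq' {v : ℝ → ℝ} (hv : Wgt v) {s : ℝ} (hs : 0 < s) {ψ : ℝ → ℝ}
    (hψ : TestFn s ψ) : Tendsto (fun T => EE v T (fun t => rr s ψ T t ^ 2)) atTop (𝓝 0) := by
  obtain ⟨K1, hK10, hK1⟩ := exists_EE_sq_sum hv
  obtain ⟨B, hB0, hB⟩ := hψ.exists_bound_cosT
  obtain ⟨K, hK0, hK⟩ := exists_n3
  obtain ⟨C, hC0, hC⟩ := exists_EE_cos hv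
  have hlog := Real.tendsto_log_atTop
  have hbd : ∀ᶠ T : ℝ in atTop, EE v T (fun t => rr s ψ T t ^ 2) ≤
      (8 / Real.log T ^ 2) * (K1 * B ^ 2 * (1 + (1 + s * Real.log T) ^ 4 / T) + C * (B * K) ^ 2) := by
    filter_upwards [eventually_ge_atTop (1 : ℝ), hlog.eventually_ge_atTop 1] with T hT1 hL1
    have hT : 0 < T := by linarith
    have hL : 0 < Real.log T := by linarith
    set N := ⌊Real.exp (s * Real.log T)⌋₊ with hN
    obtain ⟨a, ha, hsp⟩ := rr_split hB0 hB hK (Real.log T) N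
    set X : ℝ → ℝ := fun t => ∑ m ∈ Finset.Icc 2 (Nat.sqrt N), a m * Real.cos (t * (2 * Real.log m)) with hX
    have hXc : Continuous X := by
      rw [hX]
      fun_prop
    have hpt : ∀ t, rr s ψ T t ^ 2 ≤ (8 / Real.log T ^ 2) * (X t ^ 2 + (B * K) ^ 2) := by
      intro t
      have h1 := hsp t
      set Y := ∑ n ∈ npr N, Pool.Agent.H6.bb ψ (Real.log T) n * Real.cos (t * Real.log n) with hY
      have h2 : rr s ψ T t = 2 / Real.log T * Y := rfl
      have h3 : Y ^ 2 ≤ 2 * (X t ^ 2 + (B * K) ^ 2) := by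
        have h4 : |Y - X t| ≤ B * K := h1
        have h5 : (Y - X t) ^ 2 ≤ (B * K) ^ 2 := by
          rw [← sq_abs (Y - X t)]
          exact pow_le_pow_left₀ (abs_nonneg _) h4 2
        nlinarith [sq_nonneg (Y - 2 * X t)]
      rw [h2, mul_pow, div_pow]
      calc 2 ^ 2 / Real.log T ^ 2 * Y ^ 2 ≤ 2 ^ 2 / Real.log T ^ 2 * (2 * (X t ^ 2 + (B * K) ^ 2)) :=
            mul_le_mul_of_nonneg_left h3 (by positivity)
        _ = _ := by ring
    refine (EE_mono hv hT ((continuous_rr s ψ T).pow 2) (by fun_prop) fun t _ => hpt t).trans ?_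
    rw [EE_const_mul, EE_add hv hT (by fun_prop) (by fun_prop)]
    refine mul_le_mul_of_nonneg_left (add_le_add ?_ ?_) (by positivity)
    · refine (hK1 B (Nat.sqrt N) a hB0 ha T hT).trans ?_
      have h6 : Real.log (Nat.sqrt N : ℕ) ≤ s * Real.log T := by
        rcases Nat.eq_zero_or_pos (Nat.sqrt N) with h0 | h0
        · rw [h0, Nat.cast_zero, Real.log_zero]
          positivity
        · have h7 : ((Nat.sqrt N : ℕ) : ℝ) ≤ Real.exp (s * Real.log T) := by
            have h8 : ((Nat.sqrt N : ℕ) : ℝ) ≤ N := by exact_mod_cast Nat.sqrt_le_self N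
            exact h8.trans (Nat.floor_le (Real.exp_pos _).le)
          have h9 := Real.log_le_log (by exact_mod_cast h0) h7
          rwa [Real.log_exp] at h9
      have h10 : 0 ≤ Real.log (Nat.sqrt N : ℕ) := Real.log_natCast_nonneg _
      have h11 : (1 + Real.log (Nat.sqrt N : ℕ)) ^ 4 ≤ (1 + s * Real.log T) ^ 4 :=
        pow_le_pow_left₀ (by linarith) (by linarith) 4
      refine mul_le_mul_of_nonneg_left ?_ (by positivity)
      have h12 := div_le_div_of_nonneg_right h11 hT.le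
      linarith
    · have h13 := (hC T hT 0).1
      have e : (fun t : ℝ => Real.cos (t * 0)) = fun _ => (1 : ℝ) := by
        ext t
        rw [mul_zero, Real.cos_zero]
      rw [e] at h13
      have e2 : (fun _ : ℝ => (B * K) ^ 2) = fun _ : ℝ => (B * K) ^ 2 * 1 := by
        ext t
        ring
      rw [e2, EE_const_mul]
      have h14 := (le_abs_self _).trans h13
      calc (B * K) ^ 2 * EE v T (fun _ => 1) ≤ (B * K) ^ 2 * C := mul_le_mul_of_nonneg_left h14 (sq_nonneg _)
        _ = _ := by ring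
  have hlim : Tendsto (fun T : ℝ => (8 / Real.log T ^ 2) *
      (K1 * B ^ 2 * (1 + (1 + s * Real.log T) ^ 4 / T) + C * (B * K) ^ 2)) atTop (𝓝 0) := by
    have h1 : Tendsto (fun T : ℝ => (1 + s * Real.log T) ^ 4 / T) atTop (𝓝 0) := by
      have h2 : Tendsto (fun T : ℝ => Real.log T ^ 4 / T) atTop (𝓝 0) := by
        have := Real.tendsto_pow_log_div_mul_add_atTop 1 0 4 one_ne_zero
        simpa using this
      have h3 := h2.const_mul ((1 + s) ^ 4)
      rw [mul_zero] at h3
      refine squeeze_zero' ?_ ?_ h3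
      · filter_upwards [eventually_gt_atTop 0] with T hT
        positivity
      · filter_upwards [eventually_gt_atTop 0, hlog.eventually_ge_atTop 1] with T hT hL
        have h4 : 0 ≤ 1 + s * Real.log T := by positivity
        have h5 : 1 + s * Real.log T ≤ (1 + s) * Real.log T := by nlinarith
        calc (1 + s * Real.log T) ^ 4 / T ≤ ((1 + s) * Real.log T) ^ 4 / T :=
              div_le_div_of_nonneg_right (pow_le_pow_left₀ h4 h5 4) hT.le
          _ = _ := by ring
    have h6 : Tendsto (fun T : ℝ => 8 / Real.log T ^ 2) atTop (𝓝 0) :=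
      Tendsto.div_atTop tendsto_const_nhds ((tendsto_pow_atTop (by norm_num : (2 : ℕ) ≠ 0)).comp hlog)
    have h7 := h6.mul (((h1.const_add 1).const_mul (K1 * B ^ 2)).add_const (C * (B * K) ^ 2))
    simpa using h7
  refine squeeze_zero' ?_ hbd hlim
  filter_upwards [eventually_gt_atTop 0] with T hT
  exact EE_nonneg' hv hT fun t => sq_nonneg _

/-- The prime side for an arbitrary band. -/
theorem WW_eq_long {D : ℝ} (hD : 0 < D) {ψ : ℝ → ℝ} (hψ : TestFn D ψ) {T : ℝ} (hT : 1 < T) (t : ℝ) :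
    WW ψ (Real.log T) t = 2 * (ev t (bbW (fun x => x * cosT ψ x) D T)).re + rr D ψ T t := by
  have hT0 : 0 < T := by linarith
  have hL : 0 < Real.log T := Real.log_pos hT
  unfold bbW
  rw [WW_eq_sum hψ hL, ev_bb_re, rr, npr,
    ← Finset.sum_filter_add_sum_filter_not (Finset.Icc 2 ⌊Real.exp (D * Real.log T)⌋₊) Nat.Prime,
    mul_add]
  congr 1
  have hTD : T ^ D = Real.exp (D * Real.log T) := by
    rw [Real.rpow_def_of_pos hT0, mul_comm]
  have e1 : ∑ p ∈ (Finset.Icc 2 ⌊Real.exp (D * Real.log T)⌋₊).filter Nat.Prime,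
      Pool.Agent.H6.bb ψ (Real.log T) p * Real.cos (t * Real.log p) =
      ∑ p ∈ (Finset.range (⌊T ^ D⌋₊ + 1)).filter Nat.Prime,
      Pool.Agent.H6.bb ψ (Real.log T) p * Real.cos (t * Real.log p) := by
    rw [hTD]
    congr 1
    ext p
    rw [Finset.mem_filter, Finset.mem_filter, Finset.mem_Icc, Finset.mem_range]
    constructor
    · rintro ⟨⟨_, h2⟩, h3⟩
      exact ⟨by omega, h3⟩
    · rintro ⟨h2, h3⟩
      exact ⟨⟨h3.two_le, by omega⟩, h3⟩
  rw [e1, Finset.mul_sum, Finset.mul_sum]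
  refine Finset.sum_congr rfl fun p hp => ?_
  rw [Finset.mem_filter] at hp
  unfold Pool.Agent.H6.bb
  rw [ArithmeticFunction.vonMangoldt_apply_prime hp.2]
  have e2 : D * (Real.log p / Real.log (T ^ D)) = Real.log p / Real.log T := by
    rw [Real.log_rpow hT0]
    field_simp
  dsimp only
  rw [e2]
  field_simp

end Pool.Agent.H26.HF
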