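import Pool.Agent.H26.HF.D
import Pool.Agent.H67.HF.Defs2
import Pool.Agent.H5.HF.Psi
import Pool.Agent.H98.HF.Nb

/-!
# MP_103a5c_HF: the explicit formula in mean square (block `explicit_P`)

`Σ_i w_i ψ(x_i) = δ - 2 Re P(t) + small` in mean square, for the window `ψ = psi χ δ` of any band `D`.
-/

open MeasureTheory Set Filter Topology
open scoped Real ContDiff ComplexConjugate

namespace Pool.Agent.H26.HF

open Pool.Agent Pool.Agent.H6
open Pool.Agent.H14.GP Pool.Agent.H26.GH Pool.Agent.H5.GP Pool.Agent.H24.HF Pool.Agent.H67.HF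

theorem exists_EE_one {v : ℝ → ℝ} (hv : Wgt v) : ∃ C : ℝ, 0 ≤ C ∧ ∀ T : ℝ, 0 < T → EE v T (fun _ => 1) ≤ C := by
  obtain ⟨C, hC0, hC⟩ := exists_EE_cos hv
  refine ⟨C, hC0, fun T hT => ?_⟩
  have h := (hC T hT 0).1
  have e : (fun t : ℝ => Real.cos (t * 0)) = fun _ => (1 : ℝ) := by
    ext t
    rw [mul_zero, Real.cos_zero]
  rw [e] at h
  exact (le_abs_self _).trans h

theorem two_PP1_re {χ : ℝ → ℝ} {D δ : ℝ} (hW : Win2 χ D) {T : ℝ} (hT : 1 < T) (t : ℝ) :
    2 * (PP1 χ δ D T t).re = WW (psi χ δ) (Real.log T) t - rr D (psi χ δ) T t := by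
  have h := WW_eq_long (lt_of_lt_of_le one_pos hW.D_pos) (Pool.Agent.H5.HF.testFn_psi hW δ) hT t
  rw [h, Pool.Agent.H5.HF.cosT_psi hW δ]
  unfold PP1 Gd
  ring

section
variable {F : ℝ → Finset PC.Z} {CR : ℝ} {γ w : PC.Z → ℝ} [Countable PC.Z]

/-- Block `explicit_P`, under the Poisson input with the archimedean term of zeta. -/
theorem explicit_P (I : Inputs γ w F CR) {a : ℝ} (ha : 1 / 2 < a) (hP : PoissonInput γ w a (PC.arch a))
    {χ : ℝ → ℝ} {D δ : ℝ} (hW : Win2 χ D) {v : ℝ → ℝ} (hv : Wgt v) :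
    Tendsto (fun T => EE v T (fun t => (SS γ w (psi χ δ) (Real.log T) t - (δ - 2 * (PP1 χ δ D T t).re)) ^ 2))
      atTop (𝓝 0) := by
  have hD : 0 < D := lt_of_lt_of_le one_pos hW.D_pos
  have hψ := Pool.Agent.H5.HF.testFn_psi hW δ
  obtain ⟨C, hC0, hC⟩ := exists_EE_one hv
  obtain ⟨c₁, c₂, hc₁, hc₁₂, hsupp⟩ := hv.supp
  have hrr := tendsto_EE_rr_sq' hv hD hψ
  rw [Metric.tendsto_atTop]
  have key : ∀ η : ℝ, 0 < η → ∀ᶠ T in atTop,
      |EE v T (fun t => (SS γ w (psi χ δ) (Real.log T) t - (δ - 2 * (PP1 χ δ D T t).re)) ^ 2)| < η := by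
    intro η hη
    have hε : 0 < Real.sqrt (η / (4 * (C + 1))) := by positivity
    filter_upwards [Pool.Agent.H98.HF.delta_long I ha hP (Pool.Agent.H5.HF.nice_hd hW δ) hc₁ hc₁₂ hε,
      hrr.eventually (gt_mem_nhds (by positivity : (0 : ℝ) < η / 4)), eventually_gt_atTop (1 : ℝ),
      Real.tendsto_log_atTop.eventually_ge_atTop 1] with T h1 h2 hT hL
    have hT0 : 0 < T := by linarith
    have hL0 : 0 < Real.log T := by linarith
    have hcS : Continuous (SS γ w (psi χ δ) (Real.log T)) := I.continuous_SS hψ hD hL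
    have hcW : Continuous (WW (psi χ δ) (Real.log T)) := continuous_WW hψ hL0
    have hcr : Continuous (rr D (psi χ δ) T) := continuous_rr D (psi χ δ) T
    have e : (fun t => (SS γ w (psi χ δ) (Real.log T) t - (δ - 2 * (PP1 χ δ D T t).re)) ^ 2) =
        fun t => ((SS γ w (psi χ δ) (Real.log T) t - (δ - WW (psi χ δ) (Real.log T) t)) -
          rr D (psi χ δ) T t) ^ 2 := by
      ext t
      rw [two_PP1_re hW hT]
      congr 1
      ring
    rw [e, abs_of_nonneg (EE_nonneg' hv hT0 fun t => sq_nonneg _)]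
    have h3 : EE v T (fun t => ((SS γ w (psi χ δ) (Real.log T) t - (δ - WW (psi χ δ) (Real.log T) t)) -
          rr D (psi χ δ) T t) ^ 2) ≤ EE v T (fun t => 2 * (η / (4 * (C + 1))) * 1 + 2 * rr D (psi χ δ) T t ^ 2) := by
      refine EE_mono hv hT0 (by fun_prop) (by fun_prop) fun t ht => ?_
      have h4 : t ∈ Icc (c₁ * T) (c₂ * T) := by
        by_contra h5
        apply ht
        apply hsupp
        intro h6
        apply h5
        rw [mem_Icc, le_div_iff₀ hT0, div_le_iff₀ hT0] at h6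
        exact h6
      have h5 := h1 t h4
      rw [Pool.Agent.H5.HF.hd_zero hW δ] at h5
      change |SS γ w (psi χ δ) (Real.log T) t - (δ - WW (psi χ δ) (Real.log T) t)| ≤ _ at h5
      have h6 : (SS γ w (psi χ δ) (Real.log T) t - (δ - WW (psi χ δ) (Real.log T) t)) ^ 2 ≤
          η / (4 * (C + 1)) := by
        rw [← sq_abs]
        calc _ ≤ Real.sqrt (η / (4 * (C + 1))) ^ 2 := pow_le_pow_left₀ (abs_nonneg _) h5 2
          _ = _ := Real.sq_sqrt (by positivity)
      nlinarith [sq_nonneg (SS γ w (psi χ δ) (Real.log T) t - (δ - WW (psi χ δ) (Real.log T) t) +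
        rr D (psi χ δ) T t)]
    refine h3.trans_lt ?_
    rw [EE_add hv hT0 (by fun_prop) (by fun_prop), EE_const_mul, EE_const_mul]
    have h7 := hC T hT0
    have h8 : 2 * (η / (4 * (C + 1))) * EE v T (fun _ => 1) ≤ η / 2 := by
      calc 2 * (η / (4 * (C + 1))) * EE v T (fun _ => 1) ≤ 2 * (η / (4 * (C + 1))) * (C + 1) :=
            mul_le_mul_of_nonneg_left (by linarith) (by positivity)
        _ = η / 2 := by
            field_simp
            ring
    linarith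
  intro η hη
  obtain ⟨N, hN⟩ := Filter.eventually_atTop.1 (key η hη)
  refine ⟨N, fun T hT => ?_⟩
  rw [Real.dist_eq, sub_zero]
  exact hN T hT

end

/-- Block `explicit_P` for zeta. -/
theorem explicit_P_zeta (RH : RiemannHypothesis) {F : ℝ → Finset PC.Z} {CR : ℝ} [Countable PC.Z]
    (I : Inputs gZ wZ F CR) {χ : ℝ → ℝ} {D δ : ℝ} (hW : Win2 χ D) {v : ℝ → ℝ} (hv : Wgt v) :
    Tendsto (fun T => EE v T (fun t => (SS gZ wZ (psi χ δ) (Real.log T) t - (δ - 2 * (PP1 χ δ D T t).re)) ^ 2))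
      atTop (𝓝 0) := by
  obtain ⟨a, ha, hP⟩ := Pool.Agent.H98.HF.zeta_poisson RH
  exact explicit_P I ha hP hW hv

end Pool.Agent.H26.HF
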